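import Pool.Agent.helper49.HypEnd

/-!
The hyperconnectivity matroid `H_n^d` is not the unique maximal `X_d`-matroid for `d ≥ 4`.

The definitions (`cone`, `coneStep`, `coneBip`, `copies`, `family`, `vec`, `hyper`, `IsXMatroid`,
`IsMaximalXMatroid`, `IsProper`, `val`) are in `Pool.Agent.helper49.HypDefs`.

Idea of the proof. Let `A`, `B`, `K` be disjoint sets of vertices with `|A| = 3`, `|B| = d - 1`,
`|K| = d`, and let `F` be the graph consisting of all edges between `A ∪ B` and `K`, all edges
inside `A` and all edges inside `B`. In `H_n^d` the set `F` is a circuit and a flat: a linear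
dependency of `F` is a skew-symmetric matrix `W` supported on `F` with `W P = 0`, and these
correspond to the elements of `Λ²(span p_A) ∩ Λ²(span p_B)`, a one-dimensional space, since
`dim (span p_A ∩ span p_B) = 2`. As `F` has more than `(d+1)^2` edges it is not in `X_d`, so
`val(F) = |F| > |F| - 1 = r(F)`; truncating `H_n^d` to rank `|F|` and relaxing the
circuit-hyperplane `F` gives an `X_d`-matroid in which `F` is independent. For `d = 4`, `n = 10`
the set `F` has `30 = r(H_10^4)` edges, so this matroid is strictly above `H_10^4`.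
-/

open Pool.Agent.helper49.Hyp

namespace Pool.Agent.Results.MP_67060e_co.NotMaximal

/-- For all `d ≥ 4` and `n ≥ 2d + 2`: points `p_1, …, p_n ∈ ℝ^d` with algebraically independent
coordinates exist and for all such points the hyperconnectivity matroid is an `X_d`-matroid, there
is a maximal `X_d`-matroid on `E(K_n)` different from it, and `val_{X_d}` is larger than its rank
function at some set of edges. For `d = 4` and `n = 10` the hyperconnectivity matroid is not even
a maximal `X_d`-matroid. -/
theorem result :
    (∀ d n : ℕ, 4 ≤ d → 2 * d + 2 ≤ n →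
      (∃ p : Fin n → Fin d → ℝ, AlgebraicIndependent ℚ (fun x : Fin n × Fin d => p x.1 x.2)) ∧
      ∀ p : Fin n → Fin d → ℝ, AlgebraicIndependent ℚ (fun x : Fin n × Fin d => p x.1 x.2) →
        IsXMatroid (family n d) (hyper p) ∧
        (∃ M, IsMaximalXMatroid (family n d) M ∧ M ≠ hyper p) ∧
        (∃ F ⊆ En n, (((hyper p).eRk F).toNat : ℤ) < val (family n d) F)) ∧
    (∀ p : Fin 10 → Fin 4 → ℝ,
      AlgebraicIndependent ℚ (fun x : Fin 10 × Fin 4 => p x.1 x.2) →
        ¬ IsMaximalXMatroid (family 10 4) (hyper p)) :=
  ⟨fun d n hd hn => ⟨exists_gen n d, fun _ hp =>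
    ⟨hyper_isX hp hn, main_maximal hp hd hn, main_val hp hd hn⟩⟩, fun _ hp => main_ten hp⟩

end Pool.Agent.Results.MP_67060e_co.NotMaximal
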